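import Mathlib

set_option autoImplicit false

/-! The combinatorial core: uniqueness of compatible straightening relations on the lattice of
ideals of a disjoint union of chains. -/

namespace Pool.Agent.ZH16.ASL

variable {P : Type} [PartialOrder P]

/-- Glue the part of `a` inside `A` and the part of `b` outside `A`. -/
def mix (A : Set P) (hA : ∀ p q : P, p ≤ q → (p ∈ A ↔ q ∈ A)) (a b : LowerSet P) : LowerSet P where
  carrier := {p | (p ∈ A ∧ p ∈ a) ∨ (p ∉ A ∧ p ∈ b)}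
  lower' := by
    rintro p q hqp (⟨h1, h2⟩ | ⟨h1, h2⟩)
    · exact Or.inl ⟨(hA q p hqp).2 h1, a.lower hqp h2⟩
    · exact Or.inr ⟨fun h => h1 ((hA q p hqp).1 h), b.lower hqp h2⟩

theorem mem_mix {A : Set P} {hA : ∀ p q : P, p ≤ q → (p ∈ A ↔ q ∈ A)} {a b : LowerSet P} {p : P} :
    p ∈ mix A hA a b ↔ (p ∈ A ∧ p ∈ a) ∨ (p ∉ A ∧ p ∈ b) := Iff.rfl

theorem mix_self {A : Set P} {hA : ∀ p q : P, p ≤ q → (p ∈ A ↔ q ∈ A)} (a : LowerSet P) :
    mix A hA a a = a := by
  ext p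
  simp only [SetLike.mem_coe, mem_mix]
  tauto

theorem mix_le {A : Set P} {hA : ∀ p q : P, p ≤ q → (p ∈ A ↔ q ∈ A)} {a b a' b' : LowerSet P}
    (h1 : ∀ p ∈ A, p ∈ a → p ∈ a') (h2 : ∀ p, p ∉ A → p ∈ b → p ∈ b') :
    mix A hA a b ≤ mix A hA a' b' := by
  intro p hp
  rcases hp with ⟨h3, h4⟩ | ⟨h3, h4⟩
  · exact Or.inl ⟨h3, h1 p h3 h4⟩
  · exact Or.inr ⟨h3, h2 p h3 h4⟩

theorem mix_inf_cross {A : Set P} {hA : ∀ p q : P, p ≤ q → (p ∈ A ↔ q ∈ A)}
    {a b a' b' : LowerSet P} (h1 : ∀ p ∈ A, p ∈ a → p ∈ a') (h2 : ∀ p, p ∉ A → p ∈ b → p ∈ b') :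
    mix A hA a b' ⊓ mix A hA a' b = mix A hA a b := by
  ext p
  simp only [SetLike.mem_coe, LowerSet.mem_inf_iff, mem_mix]
  by_cases hp : p ∈ A
  · have := h1 p hp
    tauto
  · have := h2 p hp
    tauto

theorem mix_sup_cross {A : Set P} {hA : ∀ p q : P, p ≤ q → (p ∈ A ↔ q ∈ A)}
    {a b a' b' : LowerSet P} (h1 : ∀ p ∈ A, p ∈ a → p ∈ a') (h2 : ∀ p, p ∉ A → p ∈ b → p ∈ b') :
    mix A hA a b' ⊔ mix A hA a' b = mix A hA a' b' := by
  ext p
  simp only [SetLike.mem_coe, LowerSet.mem_sup_iff, mem_mix]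
  by_cases hp : p ∈ A
  · have := h1 p hp
    tauto
  · have := h2 p hp
    tauto

variable [Finite P] {σ : Type}

/-- size of the interval `[x ⊓ y, x ⊔ y]` -/
noncomputable def sz (x y : LowerSet P) : ℕ :=
  ((x ⊔ y : LowerSet P) : Set P).ncard - ((x ⊓ y : LowerSet P) : Set P).ncard

theorem sz_lt {x y u v : LowerSet P} (h1 : u ⊓ v ≤ x ⊓ y) (h2 : x ⊔ y ≤ u ⊔ v)
    (hne : u ⊓ v ≠ x ⊓ y ∨ u ⊔ v ≠ x ⊔ y) : sz x y < sz u v := by
  unfold sz
  have h3 : ((u ⊓ v : LowerSet P) : Set P).ncard ≤ ((x ⊓ y : LowerSet P) : Set P).ncard :=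
    Set.ncard_le_ncard h1 (Set.toFinite _)
  have h4 : ((x ⊔ y : LowerSet P) : Set P).ncard ≤ ((u ⊔ v : LowerSet P) : Set P).ncard :=
    Set.ncard_le_ncard h2 (Set.toFinite _)
  have h5 : ((x ⊓ y : LowerSet P) : Set P).ncard ≤ ((x ⊔ y : LowerSet P) : Set P).ncard :=
    Set.ncard_le_ncard (inf_le_left.trans le_sup_left : x ⊓ y ≤ x ⊔ y) (Set.toFinite _)
  rcases hne with hne | hne
  · have h6 : ((u ⊓ v : LowerSet P) : Set P).ncard < ((x ⊓ y : LowerSet P) : Set P).ncard := by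
      apply Set.ncard_lt_ncard _ (Set.toFinite _)
      exact lt_of_le_of_ne h1 (fun h => hne (SetLike.coe_injective h))
    omega
  · have h6 : ((x ⊔ y : LowerSet P) : Set P).ncard < ((u ⊔ v : LowerSet P) : Set P).ncard := by
      apply Set.ncard_lt_ncard _ (Set.toFinite _)
      exact lt_of_le_of_ne h2 (fun h => hne (SetLike.coe_injective h).symm)
    omega

/-- the data: `w` injective, multichains of length two have different weights, and all
incomparable pairs have a compatible straightening relation -/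
structure Good (w : LowerSet P → (σ →₀ ℕ)) : Prop where
  inj : ∀ a b, w a = w b → a = b
  two : ∀ a b c d, a ≤ b → c ≤ d → w a + w b = w c + w d → a = c ∧ b = d
  rel : ∀ x y, ¬ x ≤ y → ¬ y ≤ x → ∃ p q, p ≤ x ⊓ y ∧ x ⊔ y ≤ q ∧ w x + w y = w p + w q

omit [PartialOrder P] [Finite P] in
theorem prop_aux (a0 a1 b0 b1 : Prop) (h1 : ¬ (b0 ∧ b1)) (h2 : ¬ (a0 ∧ a1))
    (c1 : ¬ a1 → ¬ b0 → (a0 ∨ b1) → False) (c2 : ¬ a0 → ¬ b1 → (a1 ∨ b0) → False)
    (c3 : a0 → b0 → False) (c4 : a1 → b1 → False) : ¬ a0 ∧ ¬ a1 ∧ ¬ b0 ∧ ¬ b1 := by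
  by_cases k1 : a0 <;> by_cases k2 : a1 <;> by_cases k3 : b0 <;> by_cases k4 : b1 <;>
    simp_all

theorem step (w : LowerSet P → (σ →₀ ℕ)) (hw : Good w) (A : Set P)
    (hA : ∀ p q : P, p ≤ q → (p ∈ A ↔ q ∈ A)) (x y : LowerSet P)
    (h1 : ∀ r ∈ A, r ∈ x → r ∈ y) (h2 : ∀ r, r ∉ A → r ∈ y → r ∈ x)
    (ih : ∀ u v, sz x y < sz u v → w u + w v = w (u ⊓ v) + w (u ⊔ v))
    (p q : LowerSet P) (hp : p ≤ x ⊓ y) (hq : x ⊔ y ≤ q) (hrel : w x + w y = w p + w q) :
    p = x ⊓ y ∧ q = x ⊔ y := by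
  classical
  -- the sixteen lattice points
  obtain ⟨W, hW⟩ : ∃ W : LowerSet P → LowerSet P → (σ →₀ ℕ), ∀ a b, W a b = w (mix A hA a b) :=
    ⟨_, fun _ _ => rfl⟩
  have hmx : mix A hA x y = x ⊓ y := by
    have := mix_inf_cross (A := A) (hA := hA) (a := x) (b := y) (a' := y) (b' := x) h1 h2
    rw [mix_self, mix_self] at this
    exact this.symm
  have hjn : mix A hA y x = x ⊔ y := by
    have := mix_sup_cross (A := A) (hA := hA) (a := x) (b := y) (a' := y) (b' := x) h1 h2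
    rw [mix_self, mix_self] at this
    exact this.symm
  have hpx : ∀ r, r ∈ p → r ∈ x := fun r hr => (hp hr).1
  have hpy : ∀ r, r ∈ p → r ∈ y := fun r hr => (hp hr).2
  have hxq : ∀ r, r ∈ x → r ∈ q := fun r hr => hq (Or.inl hr)
  have hyq : ∀ r, r ∈ y → r ∈ q := fun r hr => hq (Or.inr hr)
  -- rectangles
  have E : ∀ a b a' b' : LowerSet P, (∀ r ∈ A, r ∈ a → r ∈ x) → (∀ r ∈ A, r ∈ y → r ∈ a') →
      (∀ r, r ∉ A → r ∈ b → r ∈ y) → (∀ r, r ∉ A → r ∈ x → r ∈ b') →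
      (mix A hA a b ≠ mix A hA x y ∨ mix A hA a' b' ≠ mix A hA y x) →
      W a b' + W a' b = W a b + W a' b' := by
    intro a b a' b' e1 e2 e3 e4 hne
    have e5 : ∀ r ∈ A, r ∈ a → r ∈ a' := fun r hr h => e2 r hr (h1 r hr (e1 r hr h))
    have e6 : ∀ r, r ∉ A → r ∈ b → r ∈ b' := fun r hr h => e4 r hr (h2 r hr (e3 r hr h))
    have hi := mix_inf_cross (A := A) (hA := hA) e5 e6
    have hs := mix_sup_cross (A := A) (hA := hA) e5 e6
    rw [hW, hW, hW, hW, ← hi, ← hs]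
    apply ih
    apply sz_lt
    · rw [hi, ← hmx]
      exact mix_le e1 e3
    · rw [hs, ← hjn]
      exact mix_le e2 e4
    · rw [hi, hs, ← hmx, ← hjn]
      exact hne
  have hrel' : W x x + W y y = W p p + W q q := by
    rw [hW, hW, hW, hW, mix_self, mix_self, mix_self, mix_self]
    exact hrel
  have hWinj : ∀ a b a' b', W a b = W a' b' → mix A hA a b = mix A hA a' b' := by
    intro a b a' b' h
    rw [hW, hW] at h
    exact hw.inj _ _ h
  -- the four alternatives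
  obtain ⟨α0, hα0⟩ : ∃ α0 : Prop, α0 ↔ ∃ r ∈ A, r ∈ x ∧ r ∉ p := ⟨_, Iff.rfl⟩
  obtain ⟨α1, hα1⟩ : ∃ α1 : Prop, α1 ↔ ∃ r ∈ A, r ∈ q ∧ r ∉ y := ⟨_, Iff.rfl⟩
  obtain ⟨β0, hβ0⟩ : ∃ β0 : Prop, β0 ↔ ∃ r, r ∉ A ∧ r ∈ y ∧ r ∉ p := ⟨_, Iff.rfl⟩
  obtain ⟨β1, hβ1⟩ : ∃ β1 : Prop, β1 ↔ ∃ r, r ∉ A ∧ r ∈ q ∧ r ∉ x := ⟨_, Iff.rfl⟩
  have nα0 : ¬ α0 → ∀ b, mix A hA p b = mix A hA x b := by
    intro h b
    rw [hα0] at h
    push Not at h
    apply le_antisymm <;> apply mix_le <;> intro r hr hr'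
    · exact hpx r hr'
    · exact hr'
    · exact h r hr hr'
    · exact hr'
  have nα1 : ¬ α1 → ∀ b, mix A hA q b = mix A hA y b := by
    intro h b
    rw [hα1] at h
    push Not at h
    apply le_antisymm <;> apply mix_le <;> intro r hr hr'
    · exact h r hr hr'
    · exact hr'
    · exact hyq r hr'
    · exact hr'
  have nβ0 : ¬ β0 → ∀ a, mix A hA a p = mix A hA a y := by
    intro h a
    rw [hβ0] at h
    push Not at h
    apply le_antisymm <;> apply mix_le <;> intro r hr hr'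
    · exact hr'
    · exact hpy r hr'
    · exact hr'
    · exact h r hr hr'
  have nβ1 : ¬ β1 → ∀ a, mix A hA a q = mix A hA a x := by
    intro h a
    rw [hβ1] at h
    push Not at h
    apply le_antisymm <;> apply mix_le <;> intro r hr hr'
    · exact hr'
    · exact h r hr hr'
    · exact hr'
    · exact hxq r hr'
  -- consequences of each alternative
  have yα0 : α0 → ∀ b b', mix A hA p b ≠ mix A hA x b' := by
    intro h b b' heq
    obtain ⟨r, hrA, hrx, hrp⟩ := hα0.1 h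
    have : r ∈ mix A hA p b := by rw [heq]; exact Or.inl ⟨hrA, hrx⟩
    rcases this with ⟨-, h3⟩ | ⟨h3, -⟩
    · exact hrp h3
    · exact h3 hrA
  have yα1 : α1 → ∀ b b', mix A hA q b ≠ mix A hA y b' := by
    intro h b b' heq
    obtain ⟨r, hrA, hrq, hry⟩ := hα1.1 h
    have : r ∈ mix A hA y b' := by rw [← heq]; exact Or.inl ⟨hrA, hrq⟩
    rcases this with ⟨-, h3⟩ | ⟨h3, -⟩
    · exact hry h3
    · exact h3 hrA
  have yβ0 : β0 → ∀ a a', mix A hA a p ≠ mix A hA a' y := by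
    intro h a a' heq
    obtain ⟨r, hrA, hry, hrp⟩ := hβ0.1 h
    have : r ∈ mix A hA a p := by rw [heq]; exact Or.inr ⟨hrA, hry⟩
    rcases this with ⟨h3, -⟩ | ⟨-, h3⟩
    · exact hrA h3
    · exact hrp h3
  have yβ1 : β1 → ∀ a a', mix A hA a q ≠ mix A hA a' x := by
    intro h a a' heq
    obtain ⟨r, hrA, hrq, hrx⟩ := hβ1.1 h
    have : r ∈ mix A hA a' x := by rw [← heq]; exact Or.inr ⟨hrA, hrq⟩
    rcases this with ⟨h3, -⟩ | ⟨-, h3⟩
    · exact hrA h3
    · exact hrx h3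
  -- conclusion from the Hibi relation
  have fin : W x x + W y y = W x y + W y x → p = x ⊓ y ∧ q = x ⊔ y := by
    intro h
    have h3 : w p + w q = w (x ⊓ y) + w (x ⊔ y) := by
      rw [← hrel, ← hmx, ← hjn, ← hW, ← hW, ← h, hW, hW, mix_self, mix_self]
    exact hw.two p q _ _ (hp.trans (inf_le_left.trans (le_sup_left.trans hq)))
      (inf_le_left.trans le_sup_left) h3
  by_cases hb01 : β0 ∧ β1
  · apply fin
    have e1 := E x y y q (fun _ _ h => h) (fun _ _ h => h) (fun _ _ h => h)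
      (fun r _ h => hxq r h) (Or.inr (yβ1 hb01.2 _ _))
    have e2 := E x p y x (fun _ _ h => h) (fun _ _ h => h) (fun r _ h => hpy r h)
      (fun _ _ h => h) (Or.inl (yβ0 hb01.1 _ _))
    have e3 := E x p y q (fun _ _ h => h) (fun _ _ h => h) (fun r _ h => hpy r h)
      (fun r _ h => hxq r h) (Or.inl (yβ0 hb01.1 _ _))
    ext v
    have f1 := DFunLike.congr_fun e1 v
    have f2 := DFunLike.congr_fun e2 v
    have f3 := DFunLike.congr_fun e3 v
    simp only [Finsupp.add_apply] at f1 f2 f3 ⊢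
    omega
  by_cases ha01 : α0 ∧ α1
  · apply fin
    have e1 := E x y q x (fun _ _ h => h) (fun r _ h => hyq r h) (fun _ _ h => h)
      (fun _ _ h => h) (Or.inr (yα1 ha01.2 _ _))
    have e2 := E p y y x (fun r _ h => hpx r h) (fun _ _ h => h) (fun _ _ h => h)
      (fun _ _ h => h) (Or.inl (yα0 ha01.1 _ _))
    have e3 := E p y q x (fun r _ h => hpx r h) (fun r _ h => hyq r h) (fun _ _ h => h)
      (fun _ _ h => h) (Or.inl (yα0 ha01.1 _ _))
    ext v
    have f1 := DFunLike.congr_fun e1 v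
    have f2 := DFunLike.congr_fun e2 v
    have f3 := DFunLike.congr_fun e3 v
    simp only [Finsupp.add_apply] at f1 f2 f3 ⊢
    omega
  -- W(0,3) case
  have c1 : ¬ α1 → ¬ β0 → (α0 ∨ β1) → False := by
    intro hna1 hnb0 hor
    have e1 := E p y y q (fun r _ h => hpx r h) (fun _ _ h => h) (fun _ _ h => h)
      (fun r _ h => hxq r h) (by
        rcases hor with h | h
        · exact Or.inl (yα0 h _ _)
        · exact Or.inr (yβ1 h _ _))
    have e2 : W p p = W p y := by rw [hW, hW, nβ0 hnb0]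
    have e3 : W q q = W y q := by rw [hW, hW, nα1 hna1]
    have e4 : W x x = W p q := by
      ext v
      have f1 := DFunLike.congr_fun e1 v
      have f2 := DFunLike.congr_fun e2 v
      have f3 := DFunLike.congr_fun e3 v
      have f4 := DFunLike.congr_fun hrel' v
      simp only [Finsupp.add_apply] at f1 f2 f3 f4 ⊢
      omega
    have e5 := hWinj _ _ _ _ e4
    rcases hor with h | h
    · exact yα0 h _ _ e5.symm
    · exact yβ1 h _ _ e5.symm
  have c2 : ¬ α0 → ¬ β1 → (α1 ∨ β0) → False := by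
    intro hna0 hnb1 hor
    have e1 := E x p q x (fun _ _ h => h) (fun r _ h => hyq r h) (fun r _ h => hpy r h)
      (fun _ _ h => h) (by
        rcases hor with h | h
        · exact Or.inr (yα1 h _ _)
        · exact Or.inl (yβ0 h _ _))
    have e2 : W p p = W x p := by rw [hW, hW, nα0 hna0]
    have e3 : W q q = W q x := by rw [hW, hW, nβ1 hnb1]
    have e4 : W y y = W q p := by
      ext v
      have f1 := DFunLike.congr_fun e1 v
      have f2 := DFunLike.congr_fun e2 v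
      have f3 := DFunLike.congr_fun e3 v
      have f4 := DFunLike.congr_fun hrel' v
      simp only [Finsupp.add_apply] at f1 f2 f3 f4 ⊢
      omega
    have e5 := hWinj _ _ _ _ e4
    rcases hor with h | h
    · exact yα1 h _ _ e5.symm
    · exact yβ0 h _ _ e5.symm
  have c3 : α0 → β0 → False := by
    intro ha0 hb0
    have hna1 : ¬ α1 := fun h => ha01 ⟨ha0, h⟩
    have hnb1 : ¬ β1 := fun h => hb01 ⟨hb0, h⟩
    have e1 := E p p y x (fun r _ h => hpx r h) (fun _ _ h => h) (fun r _ h => hpy r h)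
      (fun _ _ h => h) (Or.inl (yα0 ha0 _ _))
    have e2 := E p y y x (fun r _ h => hpx r h) (fun _ _ h => h) (fun _ _ h => h)
      (fun _ _ h => h) (Or.inl (yα0 ha0 _ _))
    have e3 := E x p y x (fun _ _ h => h) (fun _ _ h => h) (fun r _ h => hpy r h)
      (fun _ _ h => h) (Or.inl (yβ0 hb0 _ _))
    have e4 : W q q = W y x := by rw [hW, hW, nα1 hna1, nβ1 hnb1]
    have e5 : W x p + W p y = W p p + W p p := by
      ext v
      have f1 := DFunLike.congr_fun e1 v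
      have f2 := DFunLike.congr_fun e2 v
      have f3 := DFunLike.congr_fun e3 v
      have f4 := DFunLike.congr_fun e4 v
      have f5 := DFunLike.congr_fun hrel' v
      simp only [Finsupp.add_apply] at f1 f2 f3 f4 f5 ⊢
      omega
    obtain ⟨r, hrA, hrx, hrp⟩ := hα0.1 ha0
    obtain ⟨s, hsA, hsy, hsp⟩ := hβ0.1 hb0
    have g1 : ¬ mix A hA x p ≤ mix A hA p y := by
      intro h
      rcases h (show r ∈ mix A hA x p from Or.inl ⟨hrA, hrx⟩) with ⟨-, h3⟩ | ⟨h3, -⟩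
      · exact hrp h3
      · exact h3 hrA
    have g2 : ¬ mix A hA p y ≤ mix A hA x p := by
      intro h
      rcases h (show s ∈ mix A hA p y from Or.inr ⟨hsA, hsy⟩) with ⟨h3, -⟩ | ⟨-, h3⟩
      · exact hsA h3
      · exact hsp h3
    obtain ⟨p', q', hp', hq', hr'⟩ := hw.rel _ _ g1 g2
    rw [← hW, ← hW, e5, hW, mix_self] at hr'
    obtain ⟨-, h4⟩ := hw.two p p p' q' le_rfl
      (hp'.trans (inf_le_left.trans (le_sup_left.trans hq'))) hr'
    apply hrp
    rw [h4]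
    exact hq' (Or.inl (Or.inl ⟨hrA, hrx⟩))
  have c4 : α1 → β1 → False := by
    intro ha1 hb1
    have hna0 : ¬ α0 := fun h => ha01 ⟨h, ha1⟩
    have hnb0 : ¬ β0 := fun h => hb01 ⟨h, hb1⟩
    have e1 := E x y q q (fun _ _ h => h) (fun r _ h => hyq r h) (fun _ _ h => h)
      (fun r _ h => hxq r h) (Or.inr (yα1 ha1 _ _))
    have e2 := E x y y q (fun _ _ h => h) (fun _ _ h => h) (fun _ _ h => h)
      (fun r _ h => hxq r h) (Or.inr (yβ1 hb1 _ _))
    have e3 := E x y q x (fun _ _ h => h) (fun r _ h => hyq r h) (fun _ _ h => h)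
      (fun _ _ h => h) (Or.inr (yα1 ha1 _ _))
    have e4 : W p p = W x y := by rw [hW, hW, nα0 hna0, nβ0 hnb0]
    have e5 : W q x + W y q = W q q + W q q := by
      ext v
      have f1 := DFunLike.congr_fun e1 v
      have f2 := DFunLike.congr_fun e2 v
      have f3 := DFunLike.congr_fun e3 v
      have f4 := DFunLike.congr_fun e4 v
      have f5 := DFunLike.congr_fun hrel' v
      simp only [Finsupp.add_apply] at f1 f2 f3 f4 f5 ⊢
      omega
    obtain ⟨r, hrA, hrq, hry⟩ := hα1.1 ha1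
    obtain ⟨s, hsA, hsq, hsx⟩ := hβ1.1 hb1
    have g1 : ¬ mix A hA q x ≤ mix A hA y q := by
      intro h
      rcases h (show r ∈ mix A hA q x from Or.inl ⟨hrA, hrq⟩) with ⟨-, h3⟩ | ⟨h3, -⟩
      · exact hry h3
      · exact h3 hrA
    have g2 : ¬ mix A hA y q ≤ mix A hA q x := by
      intro h
      rcases h (show s ∈ mix A hA y q from Or.inr ⟨hsA, hsq⟩) with ⟨h3, -⟩ | ⟨-, h3⟩
      · exact hsA h3
      · exact hsx h3
    obtain ⟨p', q', hp', hq', hr'⟩ := hw.rel _ _ g1 g2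
    rw [← hW, ← hW, e5, hW, mix_self] at hr'
    obtain ⟨h4, -⟩ := hw.two q q p' q' le_rfl
      (hp'.trans (inf_le_left.trans (le_sup_left.trans hq'))) hr'
    have h5 : r ∈ p' := by rw [← h4]; exact hrq
    rcases (hp' h5).2 with ⟨-, h3⟩ | ⟨h3, -⟩
    · exact hry h3
    · exact h3 hrA
  -- all four alternatives fail
  obtain ⟨k1, k2, k3, k4⟩ := prop_aux α0 α1 β0 β1 hb01 ha01 c1 c2 c3 c4
  constructor
  · rw [← hmx, ← nα0 k1, ← nβ0 k3, mix_self]
  · rw [← hjn, ← nα1 k2, ← nβ1 k4, mix_self]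

/-- A poset is a disjoint union of chains: there is a map `c` to a set of indices such that
comparable elements have the same index and elements with the same index are comparable. -/
def IsUnionOfChains (P : Type) [PartialOrder P] : Prop :=
  ∃ (ι : Type) (c : P → ι), (∀ p q : P, p ≤ q → c p = c q) ∧
    ∀ p q : P, c p = c q → p ≤ q ∨ q ≤ p

theorem main (hP : IsUnionOfChains P) (w : LowerSet P → (σ →₀ ℕ)) (hw : Good w)
    (x y p q : LowerSet P) (hp : p ≤ x ⊓ y) (hq : x ⊔ y ≤ q)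
    (hrel : w x + w y = w p + w q) : p = x ⊓ y ∧ q = x ⊔ y := by
  classical
  obtain ⟨ι, c, hc1, hc2⟩ := hP
  -- the existence of a good splitting
  have hsplit : ∀ x y : LowerSet P, ∃ A : Set P, (∀ p q : P, p ≤ q → (p ∈ A ↔ q ∈ A)) ∧
      (∀ r ∈ A, r ∈ x → r ∈ y) ∧ (∀ r, r ∉ A → r ∈ y → r ∈ x) := by
    intro x y
    refine ⟨{r | ∀ u ∈ x, c u = c r → u ∈ y}, ?_, ?_, ?_⟩
    · intro p q hpq
      rw [Set.mem_ofPred_eq, Set.mem_ofPred_eq, hc1 p q hpq]
    · intro r hr hrx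
      exact hr r hrx rfl
    · intro r hr hry
      rw [Set.mem_ofPred_eq] at hr
      push Not at hr
      obtain ⟨u, hu, huc, huy⟩ := hr
      rcases hc2 u r huc with h | h
      · exact absurd (y.lower h hry) huy
      · exact x.lower h hu
  -- induction
  have key : ∀ N : ℕ, ∀ x y : LowerSet P, Nat.card P ≤ N + sz x y →
      (w x + w y = w (x ⊓ y) + w (x ⊔ y) ∧
        ∀ p q, p ≤ x ⊓ y → x ⊔ y ≤ q → w x + w y = w p + w q → p = x ⊓ y ∧ q = x ⊔ y) := by
    intro N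
    induction N with
    | zero =>
      intro x y hxy
      -- any larger size is impossible
      have hlarge : ∀ u v : LowerSet P, ¬ sz x y < sz u v := by
        intro u v h
        have h1 : sz u v ≤ Nat.card P := by
          unfold sz
          refine (Nat.sub_le _ _).trans ?_
          rw [← Set.ncard_univ]
          exact Set.ncard_le_ncard (Set.subset_univ _) (Set.toFinite _)
        omega
      have h2 : ∀ p q, p ≤ x ⊓ y → x ⊔ y ≤ q → w x + w y = w p + w q →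
          p = x ⊓ y ∧ q = x ⊔ y := by
        intro p q hp hq hrel
        obtain ⟨A, hA, h1, h2⟩ := hsplit x y
        exact step w hw A hA x y h1 h2 (fun u v h => absurd h (hlarge u v)) p q hp hq hrel
      refine ⟨?_, h2⟩
      by_cases hc : x ≤ y
      · rw [inf_eq_left.2 hc, sup_eq_right.2 hc]
      by_cases hc' : y ≤ x
      · rw [inf_eq_right.2 hc', sup_eq_left.2 hc', add_comm]
      obtain ⟨p, q, hp, hq, hrel⟩ := hw.rel x y hc hc'
      obtain ⟨h3, h4⟩ := h2 p q hp hq hrel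
      rw [← h3, ← h4, hrel]
    | succ N ihN =>
      intro x y hxy
      have h2 : ∀ p q, p ≤ x ⊓ y → x ⊔ y ≤ q → w x + w y = w p + w q →
          p = x ⊓ y ∧ q = x ⊔ y := by
        intro p q hp hq hrel
        obtain ⟨A, hA, h1, h2⟩ := hsplit x y
        exact step w hw A hA x y h1 h2 (fun u v h => (ihN u v (by omega)).1) p q hp hq hrel
      refine ⟨?_, h2⟩
      by_cases hc : x ≤ y
      · rw [inf_eq_left.2 hc, sup_eq_right.2 hc]
      by_cases hc' : y ≤ x
      · rw [inf_eq_right.2 hc', sup_eq_left.2 hc', add_comm]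
      obtain ⟨p, q, hp, hq, hrel⟩ := hw.rel x y hc hc'
      obtain ⟨h3, h4⟩ := h2 p q hp hq hrel
      rw [← h3, ← h4, hrel]
  exact (key (Nat.card P) x y (by omega)).2 p q hp hq hrel

end Pool.Agent.ZH16.ASL
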